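import Pool.Agent.Lib.MTZ.Adapt
import Pool.Agent.Lib.MTC.Final

/-!
# MTZ.Final (MP_e46137_lc, theorem B*): sharp time-space tradeoff for adaptive monotone machines
-/

namespace MTZ

open Classical Finset

theorem lam_eq (n S : ℕ) : lam n S = MTX.lam n S := rfl
theorem kap_eq (n S d : ℕ) : kap n S d = MTX.kap n S d := rfl
theorem phi_eq (n S d : ℕ) : phi n S d = MTX.phi n S d := rfl
theorem err_eq (n S d : ℕ) : err n S d = MTX.err n S d := rfl

namespace FinalAux

/-- the function `f (x, L) = x L - x ^ 2 / 2` at `x = min D L` changes by at most `1 + x` when `L`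
changes by `1` -/
theorem phi_step {D L : ℝ} (hD : 1 ≤ D) (hL : 1 ≤ L) :
    min D L * L - min D L ^ 2 / 2 ≤
      (min D (L - 1) * (L - 1) - min D (L - 1) ^ 2 / 2) + 1 + min D L := by
  rcases le_total D (L - 1) with h | h
  · rw [min_eq_left h, min_eq_left (by linarith)]
    nlinarith
  · rw [min_eq_right h]
    rcases le_total D L with h2 | h2
    · rw [min_eq_left h2]
      nlinarith
    · rw [min_eq_right h2]
      nlinarith

theorem err_ge {n S d : ℕ} (hn : 4 ≤ n) (hS : 1 ≤ S) (h : S ≤ n) (hd : 1 ≤ d) :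
    Real.logb 2 n + kap n S d ≤ err n S d := by
  unfold err
  have h1 := MTX.loglog_ge hn
  have h2 : 0 ≤ kap n S d := MTX.kap_nonneg hS h hd
  nlinarith

end FinalAux

open FinalAux

theorem final_lower : ∃ c : ℝ, 0 < c ∧ ∀ (n S d : ℕ) (s t : Fin n), 4 ≤ n → 1 ≤ S → S ≤ n →
    2 ≤ d → d ≤ n → s ≠ t →
    ∀ (T : ℕ) (Ω : Type) [Fintype Ω] (p : Ω → ℝ), (∀ ω, 0 ≤ p ω) → ∑ ω, p ω = 1 →
      ∀ (M : Ω → Mach n S) (out : Ω → Fin S), DecidesP p M out T d s t →
      phi n S d - c * err n S d ≤ Real.logb 2 T := by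
  obtain ⟨c, hc, hL⟩ := MTC.lower
  refine ⟨c + 4, by linarith, ?_⟩
  intro n S d s t hn hS hSn hd hdn hst T Ω _ p hp0 hp1 M out hM
  have hn0 : (4 : ℝ) ≤ n := by exact_mod_cast hn
  have hS0 : (1 : ℝ) ≤ S := by exact_mod_cast hS
  have hlog2 : (2 : ℝ) ≤ Real.logb 2 n := by
    rw [Real.le_logb_iff_rpow_le (by norm_num) (by linarith)]
    norm_num
    linarith
  have hE := err_ge (d := d) hn hS hSn (by omega)
  have hκ0 : 0 ≤ kap n S d := MTX.kap_nonneg hS hSn (by omega)
  have hE0 : 0 ≤ err n S d := by linarith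
  have hT0 : 0 ≤ Real.logb 2 (T : ℝ) := by
    rcases Nat.eq_zero_or_pos T with h | h
    · subst h
      simp
    · exact Real.logb_nonneg (by norm_num) (by exact_mod_cast h)
  have hD : (1 : ℝ) ≤ Real.logb 2 d := by
    have hd0 : (2 : ℝ) ≤ d := by exact_mod_cast hd
    rw [Real.le_logb_iff_rpow_le (by norm_num) (by linarith), Real.rpow_one]
    exact hd0
  by_cases h2S : S + S ≤ n
  · obtain ⟨M', out', hM'⟩ := decidesP_sim p M out T d s t hM
    have h1 := hL n (S + S) d (T * (n + 1)) s t hn (by omega) h2S hd hdn hst Ω p hp0 hp1 M' out' hM'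
    -- the exponent changes little
    have hlam : MTX.lam n (S + S) = lam n S - 1 := by
      show Real.logb 2 ((n : ℝ) / ((S + S : ℕ) : ℝ)) = Real.logb 2 ((n : ℝ) / S) - 1
      have e1 : ((n : ℝ) / ((S + S : ℕ) : ℝ)) = (n / S) / 2 := by
        push_cast
        field_simp
        ring
      rw [e1, Real.logb_div (by positivity) (by norm_num), Real.logb_self_eq_one (by norm_num)]
    have hlam1 : 1 ≤ lam n S := by
      show 1 ≤ Real.logb 2 ((n : ℝ) / S)
      rw [Real.le_logb_iff_rpow_le (by norm_num) (by positivity), Real.rpow_one,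
        le_div_iff₀ (by linarith)]
      have : ((S + S : ℕ) : ℝ) ≤ n := by exact_mod_cast h2S
      push_cast at this
      linarith
    have h2 : phi n S d ≤ MTX.phi n (S + S) d + 1 + kap n S d := by
      have h3 := phi_step hD hlam1
      show min (Real.logb 2 d) (lam n S) * lam n S - min (Real.logb 2 d) (lam n S) ^ 2 / 2 ≤
        (min (Real.logb 2 d) (MTX.lam n (S + S)) * MTX.lam n (S + S) -
          min (Real.logb 2 d) (MTX.lam n (S + S)) ^ 2 / 2) + 1 + min (Real.logb 2 d) (lam n S)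
      rw [hlam]
      exact h3
    have h4 : MTX.err n (S + S) d ≤ err n S d := by
      show Real.logb 2 n + min (Real.logb 2 d) (MTX.lam n (S + S)) * Real.logb 2 (Real.logb 2 n) ≤
        Real.logb 2 n + min (Real.logb 2 d) (lam n S) * Real.logb 2 (Real.logb 2 n)
      have h5 := MTX.loglog_ge hn
      rw [hlam]
      have h6 : min (Real.logb 2 d) (lam n S - 1) ≤ min (Real.logb 2 d) (lam n S) :=
        min_le_min le_rfl (by linarith)
      have h7 := mul_le_mul_of_nonneg_right h6 (by linarith : (0 : ℝ) ≤ Real.logb 2 (Real.logb 2 n))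
      linarith
    have h5 : Real.logb 2 ((T * (n + 1) : ℕ) : ℝ) ≤ Real.logb 2 T + 2 * Real.logb 2 n := by
      rcases Nat.eq_zero_or_pos T with h | h
      · subst h
        simp only [Nat.zero_mul, Nat.cast_zero, Real.logb_zero]
        linarith
      · have hTp : (1 : ℝ) ≤ T := by exact_mod_cast h
        push_cast
        rw [Real.logb_mul (by positivity) (by positivity)]
        have h6 : Real.logb 2 ((n : ℝ) + 1) ≤ Real.logb 2 ((n : ℝ) ^ 2) := by
          apply Real.logb_le_logb_of_le (by norm_num) (by positivity)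
          nlinarith
        rw [Real.logb_pow] at h6
        push_cast at h6
        linarith
    have h7 : c * MTX.err n (S + S) d ≤ c * err n S d := mul_le_mul_of_nonneg_left h4 hc.le
    nlinarith
  · -- `n < 2 S`
    have hlam : lam n S ≤ 1 := by
      show Real.logb 2 ((n : ℝ) / S) ≤ 1
      rw [Real.logb_le_iff_le_rpow (by norm_num) (by positivity), Real.rpow_one,
        div_le_iff₀ (by linarith)]
      have : (n : ℝ) ≤ ((S + S : ℕ) : ℝ) := by exact_mod_cast (by omega : n ≤ S + S)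
      push_cast at this
      linarith
    have hlam0 : 0 ≤ lam n S := MTX.lam_nonneg hS hSn
    have h1 : phi n S d ≤ kap n S d := by
      unfold phi
      nlinarith [sq_nonneg (kap n S d)]
    nlinarith

/-- Lower bound for probabilistic adaptive monotone machines, on undirected graphs; upper bound by
monotone straight line programs, for all digraphs. -/
theorem final : ∃ c : ℝ, 0 < c ∧ ∀ (n S d : ℕ) (s t : Fin n), 4 ≤ n → 1 ≤ S → S ≤ n → 2 ≤ d →
    d ≤ n → s ≠ t →
    (∀ (T : ℕ) (Ω : Type) [Fintype Ω] (p : Ω → ℝ), (∀ ω, 0 ≤ p ω) → ∑ ω, p ω = 1 →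
      ∀ (M : Ω → Mach n S) (out : Ω → Fin S), DecidesP p M out T d s t →
      phi n S d - c * err n S d ≤ Real.logb 2 T) ∧
    (c * Real.logb 2 n ≤ S → ∃ S' ≤ S, ∃ (M : Mach n S') (out : Fin S') (T : ℕ),
      M.Simple ∧ Decides M out T d s t ∧ Real.logb 2 T ≤ phi n S d + c * err n S d) := by
  obtain ⟨c₁, hc₁, hL⟩ := final_lower
  obtain ⟨c₂, hc₂, hU⟩ := MTX.upper
  refine ⟨max c₁ c₂, lt_max_of_lt_left hc₁, ?_⟩
  intro n S d s t hn hS hSn hd hdn hst
  have he : 0 ≤ err n S d := MTX.err_nonneg hn hS hSn (by omega)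
  refine ⟨?_, ?_⟩
  · intro T Ω _ p hp0 hp1 M out hM
    refine le_trans ?_ (hL n S d s t hn hS hSn hd hdn hst T Ω p hp0 hp1 M out hM)
    have h1 : c₁ * err n S d ≤ max c₁ c₂ * err n S d :=
      mul_le_mul_of_nonneg_right (le_max_left _ _) he
    linarith
  · intro hS2
    have hlog : 0 ≤ Real.logb 2 (n : ℝ) :=
      Real.logb_nonneg (by norm_num) (by exact_mod_cast (by omega : 1 ≤ n))
    obtain ⟨S', hS', M, out, T, hT, hM1, hM2, hM3⟩ := hU n S d s t hn hSn hd hdn
      ((mul_le_mul_of_nonneg_right (le_max_right c₁ c₂) hlog).trans hS2)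
    refine ⟨S', hS', toMach M, out, T, ?_, ?_, hM3.trans ?_⟩
    · intro t
      obtain ⟨i, h⟩ := hM1 t
      refine ⟨i, ?_⟩
      rcases h with h | ⟨u, h⟩ | h | h
      · exact Or.inl h
      · exact Or.inr (Or.inl ⟨M.v t, u, h⟩)
      · exact Or.inr (Or.inr (Or.inl h))
      · exact Or.inr (Or.inr (Or.inr h))
    · intro G
      obtain ⟨h1, h2⟩ := hM2 G
      rw [toMach_run]
      exact ⟨fun ⟨l, hl, hw⟩ => h1 ⟨l, hl, (hasWalk_iff G l s t).1 hw⟩, h2⟩
    · have h1 : c₂ * err n S d ≤ max c₁ c₂ * err n S d :=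
        mul_le_mul_of_nonneg_right (le_max_right _ _) he
      have h2 : MTX.phi n S d + c₂ * MTX.err n S d = phi n S d + c₂ * err n S d := rfl
      linarith

end MTZ
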