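import Pool.Agent.Lib.MTZ.Spec
import Pool.Agent.Lib.MTC.SpecP

/-!
# MTZ.Adapt (MP_e46137_lc): adaptive machines are simulated by oblivious ones
-/

namespace MTZ

open Classical Finset

variable {n S : ℕ}

theorem reach_iff {V : Type} (G : V → V → Bool) (u v : V) : Reach G u v ↔ MTB.Reach G u v :=
  Iff.rfl

theorem hasWalk_iff {V : Type} (G : V → V → Bool) (l : ℕ) (u v : V) :
    HasWalk G l u v ↔ MTB.HasWalk G l u v := by
  induction l generalizing v with
  | zero => exact Iff.rfl
  | succ l ih => exact exists_congr fun w => and_congr_left fun _ => ih w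

/-- the arcs at `a` -/
def star (a : Fin n) (G : Fin n → Fin n → Bool) : Fin n → Fin n → Bool :=
  fun u w => if u = a ∨ w = a then G u w else false

/-- `sup` of `next t σ' G` over the `σ' ≤ σ` for which the machine reads the vertex `a` -/
noncomputable def part (M : Mach n S) (t : ℕ) (a : Fin n) (σ : Fin S → Bool)
    (G : Fin n → Fin n → Bool) : Fin S → Bool :=
  fun i => decide (∃ σ', σ' ≤ σ ∧ M.v t σ' = a ∧ M.next t σ' G i = true)

theorem part_mono (M : Mach n S) (t : ℕ) (a : Fin n) {σ σ' : Fin S → Bool}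
    {G G' : Fin n → Fin n → Bool} (h : σ ≤ σ')
    (hG : ∀ u, G a u ≤ G' a u ∧ G u a ≤ G' u a) : part M t a σ G ≤ part M t a σ' G' := by
  intro i
  unfold part
  rw [Bool.le_iff_imp]
  intro h1
  obtain ⟨ρ, hρ, ha, hi⟩ := of_decide_eq_true h1
  apply decide_eq_true
  refine ⟨ρ, hρ.trans h, ha, ?_⟩
  have e1 : M.next t ρ G = M.next t ρ (star a G) := by
    apply M.loc
    intro u
    rw [ha]
    constructor
    · show G a u = if a = a ∨ u = a then G a u else false
      rw [if_pos (Or.inl rfl)]
    · show G u a = if u = a ∨ a = a then G u a else false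
      rw [if_pos (Or.inr rfl)]
  have e2 : M.next t ρ G' = M.next t ρ (star a G') := by
    apply M.loc
    intro u
    rw [ha]
    constructor
    · show G' a u = if a = a ∨ u = a then G' a u else false
      rw [if_pos (Or.inl rfl)]
    · show G' u a = if u = a ∨ a = a then G' u a else false
      rw [if_pos (Or.inr rfl)]
  have e3 : star a G ≤ star a G' := by
    intro u w
    show (if u = a ∨ w = a then G u w else false) ≤ (if u = a ∨ w = a then G' u w else false)
    by_cases hc : u = a ∨ w = a
    · rw [if_pos hc, if_pos hc]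
      rcases hc with hc | hc
      · subst hc; exact (hG w).1
      · subst hc; exact (hG u).2
    · rw [if_neg hc, if_neg hc]
  have e4 := M.mono t ρ ρ _ _ le_rfl e3 i
  rw [e2]
  rw [e1] at hi
  rw [hi] at e4
  exact Bool.eq_true_of_true_le e4

theorem part_le (M : Mach n S) (t : ℕ) (a : Fin n) (σ : Fin S → Bool)
    (G : Fin n → Fin n → Bool) : part M t a σ G ≤ M.next t σ G := by
  intro i
  unfold part
  rw [Bool.le_iff_imp]
  intro h1
  obtain ⟨ρ, hρ, -, hi⟩ := of_decide_eq_true h1
  have h2 := M.mono t ρ σ G G hρ le_rfl i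
  rw [hi] at h2
  exact Bool.eq_true_of_true_le h2

theorem part_self (M : Mach n S) (t : ℕ) (σ : Fin S → Bool)
    (G : Fin n → Fin n → Bool) : part M t (M.v t σ) σ G = M.next t σ G := by
  apply le_antisymm (part_le M t _ σ G)
  intro i
  unfold part
  rw [Bool.le_iff_imp]
  intro h1
  exact decide_eq_true ⟨σ, le_rfl, rfl, h1⟩

/-- one step of the simulation: `x` = memory of the simulated machine, `y` = accumulator -/
noncomputable def simStep (M : Mach n S) (t : ℕ) (x y : Fin S → Bool)
    (G : Fin n → Fin n → Bool) : (Fin S → Bool) × (Fin S → Bool) :=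
  if h : t % (n + 1) < n then
    (x, fun i => y i || part M (t / (n + 1)) ⟨t % (n + 1), h⟩ x G i)
  else (y, fun _ => false)

/-- the oblivious machine -/
noncomputable def sim (M : Mach n S) (a₀ : Fin n) : MTB.Mach n (S + S) where
  init := Fin.append M.init (fun _ => false)
  v := fun t => if h : t % (n + 1) < n then ⟨t % (n + 1), h⟩ else a₀
  next := fun t σ G =>
    Fin.append (simStep M t (fun i => σ (Fin.castAdd S i)) (fun i => σ (Fin.natAdd S i)) G).1
      (simStep M t (fun i => σ (Fin.castAdd S i)) (fun i => σ (Fin.natAdd S i)) G).2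
  mono := by
    intro t σ σ' G G' hσ hG
    have hx : (fun i => σ (Fin.castAdd S i)) ≤ fun i => σ' (Fin.castAdd S i) := fun i => hσ _
    have hy : (fun i => σ (Fin.natAdd S i)) ≤ fun i => σ' (Fin.natAdd S i) := fun i => hσ _
    intro i
    refine Fin.addCases (fun i => ?_) (fun i => ?_) i
    · rw [Fin.append_left, Fin.append_left]
      unfold simStep
      by_cases h : t % (n + 1) < n
      · rw [dif_pos h, dif_pos h]
        exact hx i
      · rw [dif_neg h, dif_neg h]
        exact hy i
    · rw [Fin.append_right, Fin.append_right]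
      unfold simStep
      by_cases h : t % (n + 1) < n
      · rw [dif_pos h, dif_pos h]
        simp only [dif_pos h] at hG
        have h1 := part_mono M (t / (n + 1)) ⟨t % (n + 1), h⟩ hx hG i
        have h2 := hy i
        show (σ (Fin.natAdd S i) || _) ≤ (σ' (Fin.natAdd S i) || _)
        revert h1 h2
        show part M (t / (n + 1)) ⟨t % (n + 1), h⟩ (fun i => σ (Fin.castAdd S i)) G i ≤
          part M (t / (n + 1)) ⟨t % (n + 1), h⟩ (fun i => σ' (Fin.castAdd S i)) G' i →
          σ (Fin.natAdd S i) ≤ σ' (Fin.natAdd S i) → _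
        generalize part M (t / (n + 1)) ⟨t % (n + 1), h⟩ (fun i => σ (Fin.castAdd S i)) G i = a
        generalize part M (t / (n + 1)) ⟨t % (n + 1), h⟩ (fun i => σ' (Fin.castAdd S i)) G' i = b
        generalize σ (Fin.natAdd S i) = c
        generalize σ' (Fin.natAdd S i) = d
        revert a b c d
        decide
      · rw [dif_neg h, dif_neg h]

/-- the accumulator after the vertices `< j` -/
noncomputable def acc (M : Mach n S) (G : Fin n → Fin n → Bool) (t j : ℕ) : Fin S → Bool :=
  fun i => decide (∃ a : Fin n, (a : ℕ) < j ∧ part M t a (M.run G t) G i = true)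

theorem acc_zero (M : Mach n S) (G : Fin n → Fin n → Bool) (t : ℕ) :
    acc M G t 0 = fun _ => false := by
  funext i
  apply decide_eq_false
  rintro ⟨a, ha, -⟩
  exact absurd ha (Nat.not_lt_zero _)

theorem acc_n (M : Mach n S) (G : Fin n → Fin n → Bool) (t : ℕ) :
    acc M G t n = M.run G (t + 1) := by
  funext i
  show decide (∃ a : Fin n, (a : ℕ) < n ∧ part M t a (M.run G t) G i = true) =
    M.next t (M.run G t) G i
  have h1 : (∃ a : Fin n, (a : ℕ) < n ∧ part M t a (M.run G t) G i = true) ↔
      M.next t (M.run G t) G i = true := by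
    constructor
    · rintro ⟨a, -, ha⟩
      have h2 := part_le M t a (M.run G t) G i
      rw [ha] at h2
      exact Bool.eq_true_of_true_le h2
    · intro h
      refine ⟨M.v t (M.run G t), (M.v t (M.run G t)).2, ?_⟩
      rw [part_self]
      exact h
  rw [Bool.eq_iff_iff, decide_eq_true_iff]
  exact h1

theorem acc_succ (M : Mach n S) (G : Fin n → Fin n → Bool) (t j : ℕ) (hj : j < n) :
    acc M G t (j + 1) = fun i => acc M G t j i || part M t ⟨j, hj⟩ (M.run G t) G i := by
  funext i
  unfold acc
  rw [Bool.eq_iff_iff, Bool.or_eq_true, decide_eq_true_iff, decide_eq_true_iff]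
  constructor
  · rintro ⟨a, ha, h⟩
    rcases Nat.lt_or_ge (a : ℕ) j with h1 | h1
    · exact Or.inl ⟨a, h1, h⟩
    · right
      have h2 : a = ⟨j, hj⟩ := Fin.ext (by
        show (a : ℕ) = j
        omega)
      rw [← h2]
      exact h
  · rintro (⟨a, ha, h⟩ | h)
    · exact ⟨a, by omega, h⟩
    · exact ⟨⟨j, hj⟩, Nat.lt_succ_self j, h⟩

theorem sim_next (M : Mach n S) (a₀ : Fin n) (G : Fin n → Fin n → Bool) (t : ℕ)
    (x y : Fin S → Bool) (h : (sim M a₀).run G t = Fin.append x y) :
    (sim M a₀).run G (t + 1) = Fin.append (simStep M t x y G).1 (simStep M t x y G).2 := by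
  show (sim M a₀).next t ((sim M a₀).run G t) G = _
  rw [h]
  show Fin.append
      (simStep M t (fun i => Fin.append x y (Fin.castAdd S i))
        (fun i => Fin.append x y (Fin.natAdd S i)) G).1
      (simStep M t (fun i => Fin.append x y (Fin.castAdd S i))
        (fun i => Fin.append x y (Fin.natAdd S i)) G).2 = _
  have h1 : (fun i => Fin.append x y (Fin.castAdd S i)) = x := by
    funext i
    exact Fin.append_left _ _ i
  have h2 : (fun i => Fin.append x y (Fin.natAdd S i)) = y := by
    funext i
    exact Fin.append_right _ _ i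
  rw [h1, h2]

theorem sim_run_aux (M : Mach n S) (a₀ : Fin n) (G : Fin n → Fin n → Bool) (t : ℕ)
    (h0 : (sim M a₀).run G (t * (n + 1)) = Fin.append (M.run G t) (acc M G t 0)) :
    ∀ j ≤ n, (sim M a₀).run G (t * (n + 1) + j) = Fin.append (M.run G t) (acc M G t j) := by
  intro j
  induction j with
  | zero => exact fun _ => h0
  | succ j ih =>
    intro hj
    have h1 := sim_next M a₀ G (t * (n + 1) + j) _ _ (ih (by omega))
    rw [← Nat.add_assoc, h1]
    have h2 : (t * (n + 1) + j) % (n + 1) = j := by
      rw [Nat.mul_add_mod']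
      exact Nat.mod_eq_of_lt (by omega)
    have h3 : (t * (n + 1) + j) / (n + 1) = t := by
      rw [Nat.mul_comm, Nat.mul_add_div (by omega), Nat.div_eq_of_lt (by omega), Nat.add_zero]
    have h4 : (t * (n + 1) + j) % (n + 1) < n := by omega
    unfold simStep
    rw [dif_pos h4, acc_succ M G t j (by omega)]
    congr 1
    funext i
    show (acc M G t j i || part M ((t * (n + 1) + j) / (n + 1))
      ⟨(t * (n + 1) + j) % (n + 1), h4⟩ (M.run G t) G i) = _
    have h5 : (⟨(t * (n + 1) + j) % (n + 1), h4⟩ : Fin n) = ⟨j, by omega⟩ := Fin.ext h2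
    rw [h3, h5]

theorem sim_run (M : Mach n S) (a₀ : Fin n) (G : Fin n → Fin n → Bool) (t : ℕ) :
    (sim M a₀).run G (t * (n + 1)) = Fin.append (M.run G t) (acc M G t 0) := by
  induction t with
  | zero =>
    rw [Nat.zero_mul, acc_zero]
    rfl
  | succ t ih =>
    have h1 := sim_next M a₀ G (t * (n + 1) + n) _ _ (sim_run_aux M a₀ G t ih n le_rfl)
    have h0 : (t + 1) * (n + 1) = t * (n + 1) + n + 1 := by ring
    rw [h0, h1]
    have h2 : (t * (n + 1) + n) % (n + 1) = n := by
      rw [Nat.mul_add_mod']
      exact Nat.mod_eq_of_lt (by omega)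
    have h4 : ¬ (t * (n + 1) + n) % (n + 1) < n := by omega
    unfold simStep
    rw [dif_neg h4, acc_n, acc_zero]

/-- The oblivious machine with twice the memory and `n + 1` times as many steps gives the same
output. -/
theorem exists_sim (M : Mach n S) (out : Fin S) :
    ∃ (M' : MTB.Mach n (S + S)) (out' : Fin (S + S)), ∀ G T,
      M'.run G (T * (n + 1)) out' = M.run G T out := by
  rcases Nat.eq_zero_or_pos n with hn | hn
  · exfalso
    subst hn
    exact (M.v 0 M.init).elim0
  · refine ⟨sim M ⟨0, hn⟩, Fin.castAdd S out, fun G T => ?_⟩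
    rw [sim_run, Fin.append_left]

theorem decidesP_sim {Ω : Type} [Fintype Ω] (p : Ω → ℝ) (M : Ω → Mach n S) (out : Ω → Fin S)
    (T d : ℕ) (s t : Fin n) (h : DecidesP p M out T d s t) :
    ∃ (M' : Ω → MTB.Mach n (S + S)) (out' : Ω → Fin (S + S)),
      MTC.DecidesP p M' out' (T * (n + 1)) d s t := by
  choose M' out' hM' using fun ω => exists_sim (M ω) (out ω)
  refine ⟨M', out', ?_⟩
  intro G hG
  obtain ⟨h1, h2⟩ := h G hG
  have e : (univ.filter (fun ω => (M' ω).run G (T * (n + 1)) (out' ω) = true)) =
      univ.filter (fun ω => (M ω).run G T (out ω) = true) := by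
    ext ω
    simp only [mem_filter, mem_univ, true_and]
    rw [hM' ω G T]
  rw [e]
  refine ⟨fun ⟨l, hl, hw⟩ => h1 ⟨l, hl, (hasWalk_iff G l s t).2 hw⟩, h2⟩

/-- an oblivious machine is a machine -/
def toMach (M : MTB.Mach n S) : Mach n S where
  init := M.init
  v := fun t _ => M.v t
  next := M.next
  mono := fun t σ σ' G G' h hG => M.mono t σ σ' G G' h fun u => ⟨hG (M.v t) u, hG u (M.v t)⟩
  loc := fun t σ G G' h => le_antisymm
    (M.mono t σ σ G G' le_rfl fun u => ⟨(h u).1.le, (h u).2.le⟩)
    (M.mono t σ σ G' G le_rfl fun u => ⟨(h u).1.ge, (h u).2.ge⟩)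

theorem toMach_run (M : MTB.Mach n S) (G : Fin n → Fin n → Bool) (t : ℕ) :
    (toMach M).run G t = M.run G t := by
  induction t with
  | zero => rfl
  | succ t ih =>
    show M.next t ((toMach M).run G t) G = M.next t (M.run G t) G
    rw [ih]

end MTZ
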